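import Pool.Agent.Lib.MP_718c62_al.Stanley

/-!
# Checking interval partitions with bit masks
-/

set_option autoImplicit false

open MvPolynomial

universe u

namespace Pool.Agent.Lib.MP_718c62_al

variable {n : ℕ}

/-- The set of variables encoded by a bit mask. -/
def ofMask (n m : ℕ) : Finset (Fin n) := Finset.univ.filter fun i => m.testBit i = true

lemma mem_ofMask (m : ℕ) (i : Fin n) : i ∈ ofMask n m ↔ m.testBit i = true := by
  simp [ofMask]

lemma exists_mask (s : Finset (Fin n)) : ∃ m < 2 ^ n, ofMask n m = s := by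
  classical
  refine ⟨Nat.ofBits fun i => decide (i ∈ s), Nat.ofBits_lt_two_pow _, ?_⟩
  ext i
  rw [mem_ofMask, Nat.testBit_ofBits_lt _ _ i.2]
  simp

lemma testBit_false_of_lt {a : ℕ} (ha : a < 2 ^ n) (i : ℕ) (hi : n ≤ i) : a.testBit i = false :=
  Nat.testBit_lt_two_pow (lt_of_lt_of_le ha (Nat.pow_le_pow_right (by norm_num) hi))

lemma ofMask_subset (a b : ℕ) (ha : a < 2 ^ n) : ofMask n a ⊆ ofMask n b ↔ a &&& b = a := by
  constructor
  · intro h
    apply Nat.eq_of_testBit_eq
    intro i
    rw [Nat.testBit_land]
    by_cases hi : i < n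
    · by_cases hai : a.testBit i = true
      · have : (⟨i, hi⟩ : Fin n) ∈ ofMask n b := h ((mem_ofMask a ⟨i, hi⟩).2 hai)
        rw [mem_ofMask] at this
        simp only [hai, Bool.true_and]
        exact this
      · simp only [Bool.not_eq_true] at hai
        simp [hai]
    · rw [testBit_false_of_lt ha i (by omega)]
      simp
  · intro h i hi
    rw [mem_ofMask] at hi ⊢
    rw [← h, Nat.testBit_land] at hi
    simp only [Bool.and_eq_true] at hi
    exact hi.2

/-- Some generator divides the squarefree monomial `m`. -/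
def inI (G : List ℕ) (m : ℕ) : Bool := G.any fun g => g &&& m == g

/-- `m` lies in the interval `p`. -/
def inP (p : ℕ × ℕ) (m : ℕ) : Bool := (p.1 &&& m == p.1) && (m &&& p.2 == m)

/-- The whole check: the intervals in `P` partition the complement of the ideal. -/
def check (n : ℕ) (G : List ℕ) (P : List (ℕ × ℕ)) : Bool :=
  (G.all fun g => decide (g < 2 ^ n)) &&
  (P.all fun p => decide (p.1 < 2 ^ n) && decide (p.2 < 2 ^ n) && (p.1 &&& p.2 == p.1)) &&
  ((List.range (2 ^ n)).all fun m => (P.filter fun p => inP p m).length ==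
    (if inI G m then 0 else 1))

lemma filter_length_zero {α : Type*} (q : α → Bool) (l : List α)
    (h : (l.filter q).length = 0) (i : Fin l.length) : q (l.get i) = false := by
  rw [List.length_eq_zero_iff, List.filter_eq_nil_iff] at h
  have := h (l.get i) (List.get_mem l i)
  simpa using this

lemma filter_length_one {α : Type*} (q : α → Bool) (l : List α)
    (h : (l.filter q).length = 1) :
    (∃ i : Fin l.length, q (l.get i) = true) ∧
      ∀ i j : Fin l.length, q (l.get i) = true → q (l.get j) = true → i = j := by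
  induction l with
  | nil => simp at h
  | cons a l ih =>
    by_cases ha : q a = true
    · rw [List.filter_cons_of_pos ha, List.length_cons] at h
      have h0 : (l.filter q).length = 0 := by omega
      refine ⟨⟨⟨0, by simp⟩, ha⟩, ?_⟩
      intro i j hi hj
      have key : ∀ i : Fin (a :: l).length, q ((a :: l).get i) = true → (i : ℕ) = 0 := by
        intro i hi
        rcases i with ⟨i, hil⟩
        cases i with
        | zero => rfl
        | succ i =>
          have := filter_length_zero q l h0 ⟨i, by simpa using hil⟩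
          simp only [List.get_eq_getElem, List.getElem_cons_succ] at hi this
          rw [this] at hi
          exact absurd hi (by simp)
      exact Fin.ext ((key i hi).trans (key j hj).symm)
    · rw [List.filter_cons_of_neg ha] at h
      obtain ⟨⟨i, hi⟩, huniq⟩ := ih h
      refine ⟨⟨⟨i + 1, by simp⟩, by simpa using hi⟩, ?_⟩
      intro i j hi hj
      rcases i with ⟨i, hil⟩
      rcases j with ⟨j, hjl⟩
      cases i with
      | zero => exact absurd hi ha
      | succ i =>
        cases j with
        | zero => exact absurd hj ha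
        | succ j =>
          have := huniq ⟨i, by simpa using hil⟩ ⟨j, by simpa using hjl⟩ (by simpa using hi)
            (by simpa using hj)
          simp only [Fin.mk.injEq] at this
          simp [this]

/-- The check gives the hypotheses of `sdepth_eq`. -/
lemma sdepth_of_check (K : Type u) [Field K] (G : List ℕ) (P : List (ℕ × ℕ))
    (hc : check n G P = true) (T : Finset (Fin n))
    (hT : ∀ s : Finset (Fin n), T ⊆ s → (¬ ∃ g ∈ G.map (ofMask n), g ⊆ s) → s = T)
    (hT' : ¬ ∃ g ∈ G.map (ofMask n), g ⊆ T)
    (hZ : ∀ p ∈ P, T.card ≤ (ofMask n p.2).card) :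
    sdepth (mono K ((G.map (ofMask n)).map indv)) = T.card := by
  unfold check at hc
  rw [Bool.and_eq_true, Bool.and_eq_true, List.all_eq_true, List.all_eq_true,
    List.all_eq_true] at hc
  obtain ⟨⟨hG, hP⟩, hcov⟩ := hc
  have hG' : ∀ g ∈ G, g < 2 ^ n := fun g hg => by simpa using hG g hg
  have hP' : ∀ p ∈ P, p.1 < 2 ^ n ∧ p.2 < 2 ^ n ∧ p.1 &&& p.2 = p.1 := fun p hp => by
    have := hP p hp
    simp only [Bool.and_eq_true, decide_eq_true_eq, beq_iff_eq] at this
    exact ⟨this.1.1, this.1.2, this.2⟩
  have hcov' : ∀ m < 2 ^ n, (P.filter fun p => inP p m).length = if inI G m then 0 else 1 :=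
    fun m hm => by simpa using hcov m (List.mem_range.2 hm)
  have hinI : ∀ m, (∃ g ∈ G.map (ofMask n), g ⊆ ofMask n m) ↔ inI G m = true := by
    intro m
    unfold inI
    rw [List.any_eq_true]
    constructor
    · rintro ⟨x, hx, hgm⟩
      obtain ⟨g, hg, rfl⟩ := List.mem_map.1 hx
      rw [ofMask_subset _ _ (hG' g hg)] at hgm
      exact ⟨g, hg, by simpa using hgm⟩
    · rintro ⟨g, hg, hgm⟩
      refine ⟨_, List.mem_map.2 ⟨g, hg, rfl⟩, ?_⟩
      rw [ofMask_subset _ _ (hG' g hg)]
      simpa using hgm
  have hinP : ∀ (i : Fin P.length) (m : ℕ), m < 2 ^ n →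
      ((ofMask n (P.get i).1 ⊆ ofMask n m ∧ ofMask n m ⊆ ofMask n (P.get i).2) ↔
        inP (P.get i) m = true) := by
    intro i m hm
    have h1 := (hP' _ (List.get_mem P i)).1
    rw [ofMask_subset _ _ h1, ofMask_subset _ _ hm]
    unfold inP
    simp only [Bool.and_eq_true, beq_iff_eq]
  refine sdepth_eq K (G.map (ofMask n)) T hT hT' (fun i : Fin P.length => ofMask n (P.get i).1)
    (fun i => ofMask n (P.get i).2) ?_ ?_ ?_ ?_
  · intro i
    rw [ofMask_subset _ _ (hP' _ (List.get_mem P i)).1]
    exact (hP' _ (List.get_mem P i)).2.2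
  · intro s
    obtain ⟨m, hm, rfl⟩ := exists_mask s
    rw [hinI m]
    have h1 := hcov' m hm
    by_cases h : inI G m = true
    · rw [if_pos h] at h1
      simp only [h, not_true_eq_false, false_iff, not_exists]
      intro i hi
      rw [hinP i m hm] at hi
      have := filter_length_zero _ _ h1 i
      rw [this] at hi
      exact absurd hi (by simp)
    · rw [if_neg h] at h1
      obtain ⟨⟨i, hi⟩, -⟩ := filter_length_one _ _ h1
      exact ⟨fun _ => ⟨i, (hinP i m hm).2 hi⟩, fun _ => h⟩
  · intro s i j hi1 hi2 hj1 hj2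
    obtain ⟨m, hm, rfl⟩ := exists_mask s
    have h1 := hcov' m hm
    have hi := (hinP i m hm).1 ⟨hi1, hi2⟩
    have hj := (hinP j m hm).1 ⟨hj1, hj2⟩
    by_cases h : inI G m = true
    · rw [if_pos h] at h1
      have := filter_length_zero _ _ h1 i
      rw [this] at hi
      exact absurd hi (by simp)
    · rw [if_neg h] at h1
      exact (filter_length_one _ _ h1).2 i j hi hj
  · intro i
    exact hZ _ (List.get_mem P i)

end Pool.Agent.Lib.MP_718c62_al
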