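import Pool.Agent.Lib.MP_718c62_al.Stanley

/-!
# Vanishing and injectivity of maps on `Ext(-, N)` induced by multiplications `R/J' → R/J`
-/

set_option autoImplicit false

open CategoryTheory Abelian MvPolynomial

universe u

namespace Pool.Agent.Lib.MP_718c62_al

section Gen

variable {R : Type u} [CommRing R]

/-- The map `φ` induces `0` on `Ext^t(-, N)`. -/
def ZExt {M M' : ModuleCat.{u} R} (φ : M ⟶ M') (N : ModuleCat.{u} R) (t : ℕ) : Prop :=
  ∀ e : Ext M' N t, (Ext.mk₀ φ).comp e (zero_add t) = 0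

/-- The map `φ` induces an injection on `Ext^t(-, N)`. -/
def IExt {M M' : ModuleCat.{u} R} (φ : M ⟶ M') (N : ModuleCat.{u} R) (t : ℕ) : Prop :=
  ∀ e : Ext M' N t, (Ext.mk₀ φ).comp e (zero_add t) = 0 → e = 0

lemma ZExt.of_lt {M M' : ModuleCat.{u} R} (φ : M ⟶ M') (N : ModuleCat.{u} R) (t : ℕ)
    (h : HasProjectiveDimensionLT M' t ∨ HasProjectiveDimensionLT M t) : ZExt φ N t := by
  intro e
  rcases h with h | h
  · rw [e.eq_zero_of_hasProjectiveDimensionLT t le_rfl, Ext.comp_zero]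
  · exact Ext.eq_zero_of_hasProjectiveDimensionLT _ t le_rfl

lemma IExt.comp {M M' M'' : ModuleCat.{u} R} {φ : M ⟶ M'} {ψ : M' ⟶ M''} {N : ModuleCat.{u} R}
    {t : ℕ} (h1 : IExt φ N t) (h2 : IExt ψ N t) : IExt (φ ≫ ψ) N t := by
  intro e he
  rw [← Ext.mk₀_comp_mk₀, Ext.comp_assoc_of_second_deg_zero] at he
  exact h2 e (h1 _ he)

/-- If `S.f` is injective on `Ext^t` then `S.g` is zero on `Ext^t`. -/
lemma ZExt.of_IExt {S : ShortComplex (ModuleCat.{u} R)} {N : ModuleCat.{u} R}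
    {t : ℕ} (h : IExt S.f N t) : ZExt S.g N t := by
  intro e
  apply h
  rw [← Ext.comp_assoc_of_second_deg_zero, Ext.mk₀_comp_mk₀, S.zero, Ext.mk₀_zero, Ext.zero_comp]

/-- If `S.g` is zero on `Ext^t` then `S.f` is injective on `Ext^t`. -/
lemma IExt.of_ZExt {S : ShortComplex (ModuleCat.{u} R)} (hS : S.ShortExact)
    {N : ModuleCat.{u} R} {t : ℕ} (h : ZExt S.g N t) : IExt S.f N t := by
  intro e he
  obtain ⟨x, hx⟩ := Ext.contravariant_sequence_exact₂ hS N e he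
  rw [← hx]
  exact h x

/-- Naturality of the connecting homomorphism. -/
lemma ZExt.of_map {S₁ S₂ : ShortComplex (ModuleCat.{u} R)} (h₁ : S₁.ShortExact)
    (h₂ : S₂.ShortExact) (τ : S₁ ⟶ S₂) {N : ModuleCat.{u} R} {t : ℕ}
    (hτ : ZExt τ.τ₁ N t) (hg : ZExt S₂.g N (t + 1)) : ZExt τ.τ₃ N (t + 1) := by
  intro e
  obtain ⟨x, hx⟩ := Ext.contravariant_sequence_exact₃ h₂ N e (hg e) (add_comm 1 t)
  rw [← hx, ← Ext.comp_assoc (a₁₂ := 1) _ _ _ (by omega) (by omega) (by omega),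
    ← ShortComplex.ShortExact.extClass_naturality h₁ h₂ τ,
    Ext.comp_assoc (a₂₃ := t) _ _ _ (by omega) (by omega) (by omega), hτ x, Ext.comp_zero]

/-- If `S.f` is zero on `Ext^t` and `Ext^t(X₁, N) ≠ 0` then `Ext^{t+1}(X₃, N) ≠ 0`. -/
lemma ext_ne_zero_of_ZExt {S : ShortComplex (ModuleCat.{u} R)} (hS : S.ShortExact)
    {N : ModuleCat.{u} R} {t : ℕ} (h : ZExt S.f N t) (h1 : ∃ e : Ext S.X₁ N t, e ≠ 0) :
    ∃ e : Ext S.X₃ N (t + 1), e ≠ 0 := by
  obtain ⟨e, he⟩ := h1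
  refine ⟨hS.extClass.comp e (add_comm 1 t), fun h0 => he ?_⟩
  obtain ⟨x, hx⟩ := Ext.contravariant_sequence_exact₁ hS N e (add_comm 1 t) h0
  rw [← hx]
  exact h x

/-- Multiplication by `f` as a morphism `R/J' → R/J`. -/
noncomputable def mh (J' J : Ideal R) (f : R) (h : ∀ r, r ∈ J' → f * r ∈ J) : quo J' ⟶ quo J :=
  ModuleCat.ofHom (Submodule.mapQ J' J (LinearMap.mulLeft R f) h)

lemma mh_comp (J₁ J₂ J₃ : Ideal R) (f g : R) (h : ∀ r, r ∈ J₁ → f * r ∈ J₂)
    (h' : ∀ r, r ∈ J₂ → g * r ∈ J₃) (k : R) (hk : k = g * f) (h'' : ∀ r, r ∈ J₁ → k * r ∈ J₃) :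
    mh J₁ J₂ f h ≫ mh J₂ J₃ g h' = mh J₁ J₃ k h'' := by
  subst hk
  apply ModuleCat.hom_ext
  apply LinearMap.ext
  intro x
  obtain ⟨x, rfl⟩ := Submodule.Quotient.mk_surjective J₁ x
  change Submodule.Quotient.mk (g * (f * x)) = (Submodule.Quotient.mk (g * f * x) : R ⧸ J₃)
  rw [mul_assoc]

/-- The data of a colon sequence: `J' = (J : f)` and `J'' = J + (f)`. -/
structure ColonData (J' J J'' : Ideal R) (f : R) : Prop where
  colon : ∀ r, r ∈ J' ↔ f * r ∈ J
  sum : J'' = J ⊔ Ideal.span {f}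

namespace ColonData

variable {J' J J'' : Ideal R} {f : R} (D : ColonData J' J J'' f)

include D in
lemma le : J ≤ J'' := D.sum ▸ le_sup_left

include D in
lemma le' : ∀ r, r ∈ J → 1 * r ∈ J'' := fun r hr => by rw [one_mul]; exact D.le hr

include D in
lemma mem : f ∈ J'' := D.sum ▸ Ideal.mem_sup_right (Ideal.mem_span_singleton_self f)

/-- The colon sequence as a short complex. -/
noncomputable def sc : ShortComplex (ModuleCat.{u} R) :=
  ShortComplex.mk (mh J' J f fun r hr => (D.colon r).1 hr) (mh J J'' 1 D.le') (by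
    apply ModuleCat.hom_ext
    apply LinearMap.ext
    intro x
    obtain ⟨x, rfl⟩ := Submodule.Quotient.mk_surjective J' x
    change Submodule.Quotient.mk (1 * (f * x)) = (0 : R ⧸ J'')
    rw [one_mul, Submodule.Quotient.mk_eq_zero]
    exact J''.mul_mem_right _ D.mem)

lemma shortExact : D.sc.ShortExact := by
  have hex : Function.Exact (Submodule.mapQ J' J (LinearMap.mulLeft R f)
      (fun r hr => (D.colon r).1 hr)) (Submodule.mapQ J J'' (LinearMap.mulLeft R 1) D.le') := by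
    intro y
    obtain ⟨y, rfl⟩ := Submodule.Quotient.mk_surjective J y
    constructor
    · intro hy
      change Submodule.Quotient.mk (1 * y) = (0 : R ⧸ J'') at hy
      rw [one_mul, Submodule.Quotient.mk_eq_zero, D.sum, Submodule.mem_sup] at hy
      obtain ⟨j, hj, z, hz, rfl⟩ := hy
      obtain ⟨c, rfl⟩ := Ideal.mem_span_singleton'.1 hz
      refine ⟨Submodule.Quotient.mk c, ?_⟩
      change (Submodule.Quotient.mk (f * c) : R ⧸ J) = Submodule.Quotient.mk (j + c * f)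
      rw [Submodule.Quotient.eq]
      have : f * c - (j + c * f) = -j := by ring
      rw [this]
      exact J.neg_mem hj
    · rintro ⟨x, hx⟩
      obtain ⟨x, rfl⟩ := Submodule.Quotient.mk_surjective J' x
      rw [← hx]
      change Submodule.Quotient.mk (1 * (f * x)) = (0 : R ⧸ J'')
      rw [one_mul, Submodule.Quotient.mk_eq_zero]
      exact J''.mul_mem_right _ D.mem
  have hinj : Function.Injective (Submodule.mapQ J' J (LinearMap.mulLeft R f)
      (fun r hr => (D.colon r).1 hr)) := by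
    rw [injective_iff_map_eq_zero]
    intro x hx
    obtain ⟨x, rfl⟩ := Submodule.Quotient.mk_surjective J' x
    change (Submodule.Quotient.mk (f * x) : R ⧸ J) = 0 at hx
    rw [Submodule.Quotient.mk_eq_zero] at hx
    rw [Submodule.Quotient.mk_eq_zero]
    exact (D.colon x).2 hx
  have hsurj : Function.Surjective (Submodule.mapQ J J'' (LinearMap.mulLeft R 1) D.le') := by
    intro y
    obtain ⟨y, rfl⟩ := Submodule.Quotient.mk_surjective J'' y
    refine ⟨Submodule.Quotient.mk y, ?_⟩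
    change (Submodule.Quotient.mk (1 * y) : R ⧸ J'') = _
    rw [one_mul]
  exact
    { exact := ModuleCat.shortComplex_exact _ hex
      mono_f := by
        change Mono (ModuleCat.ofHom _)
        rw [ModuleCat.mono_iff_injective]
        exact hinj
      epi_g := by
        change Epi (ModuleCat.ofHom _)
        rw [ModuleCat.epi_iff_surjective]
        exact hsurj }

end ColonData

/-- A morphism of colon sequences given by multiplications by `a₁, a₂, a₃`. -/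
noncomputable def colonMap {J₁' J₁ J₁'' J₂' J₂ J₂'' : Ideal R} {f g : R}
    (D₁ : ColonData J₁' J₁ J₁'' f) (D₂ : ColonData J₂' J₂ J₂'' g) (a₁ a₂ : R)
    (h1 : ∀ r, r ∈ J₁' → a₁ * r ∈ J₂') (h2 : ∀ r, r ∈ J₁ → a₂ * r ∈ J₂)
    (h3 : ∀ r, r ∈ J₁'' → a₂ * r ∈ J₂'') (hc : g * a₁ = a₂ * f) : D₁.sc ⟶ D₂.sc where
  τ₁ := mh J₁' J₂' a₁ h1
  τ₂ := mh J₁ J₂ a₂ h2
  τ₃ := mh J₁'' J₂'' a₂ h3
  comm₁₂ := by
    change mh _ _ _ _ ≫ mh _ _ _ _ = mh _ _ _ _ ≫ mh _ _ _ _
    have h4 : ∀ r, r ∈ J₁' → (g * a₁) * r ∈ J₂ := fun r hr => by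
      rw [mul_assoc]; exact (D₂.colon _).1 (h1 r hr)
    rw [mh_comp J₁' J₂' J₂ a₁ g h1 _ (g * a₁) rfl h4,
      mh_comp J₁' J₁ J₂ f a₂ _ h2 (g * a₁) hc h4]
  comm₂₃ := by
    change mh _ _ _ _ ≫ mh _ _ _ _ = mh _ _ _ _ ≫ mh _ _ _ _
    have h4 : ∀ r, r ∈ J₁ → a₂ * r ∈ J₂'' := fun r hr => D₂.le (h2 r hr)
    rw [mh_comp J₁ J₂ J₂'' a₂ 1 h2 _ a₂ (by ring) h4,
      mh_comp J₁ J₁'' J₂'' 1 a₂ _ h3 a₂ (by ring) h4]

/-- Multiplication by an element killing `N` is zero on `Ext(-, N)`. -/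
lemma ZExt.of_smul (J : Ideal R) (f : R) (h : ∀ r, r ∈ J → f * r ∈ J) (N : ModuleCat.{u} R)
    (hN : (f • 𝟙 N) = 0) (t : ℕ) : ZExt (mh J J f h) N t := by
  intro e
  have h1 : mh J J f h = f • 𝟙 (quo J) := rfl
  rw [h1]
  have key : (Ext.mk₀ (f • 𝟙 (quo J))).comp e (zero_add t) =
      e.comp (Ext.mk₀ (f • 𝟙 N)) (add_zero t) := by
    rw [Ext.mk₀_smul, Ext.mk₀_smul, Ext.smul_comp, Ext.comp_smul, Ext.mk₀_id_comp, Ext.comp_mk₀_id]
  rw [key, hN, Ext.mk₀_zero, Ext.comp_zero]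

/-- The comparison `R/(B + b) → R/(B + ab)` (multiplication by `a`) is injective on `Ext^{t+1}`
when `pd R/B ≤ t`, `a` and `ab` are regular modulo `B` and `b` kills `N`. -/
lemma IExt.regular {B J' J J'' : Ideal R} {a b : R} (N : ModuleCat.{u} R) (t : ℕ)
    (hN : (b • 𝟙 N) = 0) (hB : HasProjectiveDimensionLT (quo B) (t + 1))
    (Dab : ColonData B B J (a * b)) (Da : ColonData B B J'' a) (D : ColonData J' J J'' a)
    (hJ : J ≤ J'') :
    IExt (mh J' J a fun r hr => (D.colon r).1 hr) N (t + 1) := by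
  have h3 : ∀ r, r ∈ J → 1 * r ∈ J'' := fun r hr => by rw [one_mul]; exact hJ hr
  have hz : ZExt (mh J J'' 1 h3) N (t + 1) := by
    let τ : Dab.sc ⟶ Da.sc := colonMap Dab Da b 1 (fun r hr => B.mul_mem_left _ hr)
      (fun r hr => B.mul_mem_left _ hr) h3 (by ring)
    have hτ := ZExt.of_map Dab.shortExact Da.shortExact τ (N := N) (t := t)
      (ZExt.of_smul B b _ N hN t) (ZExt.of_lt _ N (t + 1) (Or.inr hB))
    exact hτ
  exact IExt.of_ZExt D.shortExact hz

end Gen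

end Pool.Agent.Lib.MP_718c62_al
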