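import Pool.Agent.Lib.MP_718c62_al.ExtZero

/-!
# The projective dimension of the ideal of rows and columns of a 3 × 3 grid
-/

set_option autoImplicit false

open CategoryTheory Abelian MvPolynomial

universe u

namespace Pool.Agent.Lib.MP_718c62_al

section Mon

variable {n : ℕ} (K : Type u) [Field K]

/-- The monomial with exponent vector `f`. -/
noncomputable def mon (f : Fin n → ℕ) : MvPolynomial (Fin n) K := monomial (vec f) (1 : K)

lemma mon_mul (f g : Fin n → ℕ) : mon K f * mon K g = mon K (f + g) := by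
  unfold mon
  rw [MvPolynomial.monomial_mul, one_mul]
  have h : vec f + vec g = vec (f + g) := Finsupp.ext fun i => rfl
  rw [h]

/-- The two lists generate the same monomial ideal (a decidable sufficient condition). -/
def Eqv (L L' : List (Fin n → ℕ)) : Prop :=
  (∀ a ∈ L, ∃ b ∈ L', b ≤ a) ∧ (∀ b ∈ L', ∃ a ∈ L, a ≤ b)

instance (L L' : List (Fin n → ℕ)) : Decidable (Eqv L L') := instDecidableAnd

lemma Eqv.mono_eq {L L' : List (Fin n → ℕ)} (h : Eqv L L') : mono K L = mono K L' :=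
  mono_congr K L L' h.1 h.2

/-- Divisibility of generators gives inclusion. -/
def Le (L L' : List (Fin n → ℕ)) : Prop := ∀ a ∈ L, ∃ b ∈ L', b ≤ a

instance (L L' : List (Fin n → ℕ)) : Decidable (Le L L') :=
  inferInstanceAs (Decidable (∀ a ∈ L, ∃ b ∈ L', b ≤ a))

lemma Le.mono_le {L L' : List (Fin n → ℕ)} (h : Le L L') : mono K L ≤ mono K L' := by
  intro p hp
  rw [mem_mono] at hp ⊢
  intro m hm
  obtain ⟨a, ha, ham⟩ := hp m hm
  obtain ⟨b, hb, hba⟩ := h a ha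
  exact ⟨b, hb, hba.trans ham⟩

/-- Decidable conditions giving a colon sequence of monomial ideals. -/
lemma colonData {L' L L'' : List (Fin n → ℕ)} {f : Fin n → ℕ}
    (h1 : Eqv L' (L.map (· - f))) (h2 : Eqv L'' (f :: L)) :
    ColonData (mono K L') (mono K L) (mono K L'') (mon K f) where
  colon := fun r => by rw [h1.mono_eq K]; exact colon_mono K L f r
  sum := by rw [h2.mono_eq K]; exact mono_cons K f L

/-- Multiplication by a monomial maps one monomial ideal into another (decidable condition). -/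
lemma mul_mem_of {L L' : List (Fin n → ℕ)} {f : Fin n → ℕ} (h : Le L (L'.map (· - f))) :
    ∀ r, r ∈ mono K L → mon K f * r ∈ mono K L' := by
  intro r hr
  exact (colon_mono K L' f r).1 (h.mono_le K hr)

lemma lt_of_colonData {J' J J'' : Ideal (MvPolynomial (Fin n) K)} {f : MvPolynomial (Fin n) K}
    (D : ColonData J' J J'' f) (m : ℕ) (h' : HasProjectiveDimensionLT (quo J') m)
    (h : HasProjectiveDimensionLT (quo J) (m + 1)) : HasProjectiveDimensionLT (quo J'') (m + 1) :=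
  lt_sum f D.colon D.sum m h' h

lemma lt_ge {L : List (Fin n → ℕ)} (m : ℕ) (h : L.length + 1 ≤ m) :
    HasProjectiveDimensionLT (quo (mono K L)) m := by
  have := lt_length K L
  exact hasProjectiveDimensionLT_of_ge _ (L.length + 1) _ h

/-- The comparison lemma in list form. -/
lemma IExt.list {LB LJ' LJ LJ'' : List (Fin n → ℕ)} {a b : Fin n → ℕ}
    (N : ModuleCat.{u} (MvPolynomial (Fin n) K)) (t : ℕ)
    (hN : (mon K b • 𝟙 N) = 0) (hB : LB.length ≤ t)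
    (h1 : Eqv LB (LB.map (· - (a + b)))) (h2 : Eqv LJ ((a + b) :: LB))
    (h3 : Eqv LB (LB.map (· - a))) (h4 : Eqv LJ'' (a :: LB))
    (h5 : Eqv LJ' (LJ.map (· - a))) (h6 : Eqv LJ'' (a :: LJ)) :
    IExt (mh (mono K LJ') (mono K LJ) (mon K a)
      fun r hr => ((colonData K h5 h6).colon r).1 hr) N (t + 1) := by
  have Dab : ColonData (mono K LB) (mono K LB) (mono K LJ) (mon K a * mon K b) := by
    rw [mon_mul]; exact colonData K h1 h2
  exact IExt.regular N t hN (lt_ge K (t + 1) (by omega)) Dab (colonData K h3 h4)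
    (colonData K h5 h6) (colonData K h5 h6).le

end Mon

namespace Grid

/-- The variable in row `i` and column `j`. -/
def X (i j : Fin 3) : Fin 9 → ℕ := fun k => if (k : ℕ) = 3 * i + j then 1 else 0

/-- rows -/
def Rw (i : Fin 3) : Fin 9 → ℕ := X i 0 + X i 1 + X i 2

/-- columns -/
def Cl (j : Fin 3) : Fin 9 → ℕ := X 0 j + X 1 j + X 2 j

variable (K : Type u) [Field K]

/-- the list of all variables -/
def vars : List (Fin 9 → ℕ) := [X 0 0, X 0 1, X 0 2, X 1 0, X 1 1, X 1 2, X 2 0, X 2 1, X 2 2]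

/-- the residue field as a module -/
noncomputable abbrev N : ModuleCat.{u} (MvPolynomial (Fin 9) K) := quo (mono K vars)

lemma hN (i j : Fin 3) : (mon K (X i j) • 𝟙 (N K)) = 0 := by
  apply smul_id_eq_zero
  unfold mon
  rw [monomial_mem_mono]
  exact ⟨X i j, by fin_cases i <;> fin_cases j <;> decide, le_refl _⟩

/-- the list `(a₁, a₂, a₃)` with `aᵢ = x_{i0}` -/
def LA : List (Fin 9 → ℕ) := [X 0 0, X 1 0, X 2 0]

/-- the list `(b₁, b₂, b₃)` with `bᵢ = x_{ij}` -/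
def LB (j : Fin 3) : List (Fin 9 → ℕ) := [X 0 j, X 1 j, X 2 j]

/-- the list `(a₁b₁, a₂b₂, a₃b₃)` -/
def L3 (j : Fin 3) : List (Fin 9 → ℕ) := [X 0 0 + X 0 j, X 1 0 + X 1 j, X 2 0 + X 2 j]

/-- the list `(a₁a₂a₃, a₁b₁, a₂b₂, a₃b₃)` -/
def L4 (j : Fin 3) : List (Fin 9 → ℕ) := Cl 0 :: L3 j

lemma dA1 : ∀ j : Fin 3, j ≠ 0 →
    Eqv [X 0 j, X 1 j] ([X 0 j, X 1 j].map (· - (X 2 0 + X 2 j))) ∧
    Eqv [X 0 j, X 1 j, X 2 0 + X 2 j] ((X 2 0 + X 2 j) :: [X 0 j, X 1 j]) ∧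
    Eqv [X 0 j, X 1 j] ([X 0 j, X 1 j].map (· - X 2 0)) ∧
    Eqv [X 0 j, X 1 j, X 2 0] (X 2 0 :: [X 0 j, X 1 j]) ∧
    Eqv (LB j) ([X 0 j, X 1 j, X 2 0 + X 2 j].map (· - X 2 0)) ∧
    Eqv [X 0 j, X 1 j, X 2 0] (X 2 0 :: [X 0 j, X 1 j, X 2 0 + X 2 j]) := by
  decide

lemma dA2 : ∀ j : Fin 3, j ≠ 0 →
    Eqv [X 0 j, X 2 0 + X 2 j] ([X 0 j, X 2 0 + X 2 j].map (· - (X 1 0 + X 1 j))) ∧
    Eqv [X 0 j, X 1 0 + X 1 j, X 2 0 + X 2 j] ((X 1 0 + X 1 j) :: [X 0 j, X 2 0 + X 2 j]) ∧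
    Eqv [X 0 j, X 2 0 + X 2 j] ([X 0 j, X 2 0 + X 2 j].map (· - X 1 0)) ∧
    Eqv [X 0 j, X 1 0, X 2 0 + X 2 j] (X 1 0 :: [X 0 j, X 2 0 + X 2 j]) ∧
    Eqv [X 0 j, X 1 j, X 2 0 + X 2 j]
      ([X 0 j, X 1 0 + X 1 j, X 2 0 + X 2 j].map (· - X 1 0)) ∧
    Eqv [X 0 j, X 1 0, X 2 0 + X 2 j] (X 1 0 :: [X 0 j, X 1 0 + X 1 j, X 2 0 + X 2 j]) := by
  decide

lemma dA3 : ∀ j : Fin 3, j ≠ 0 →
    Eqv [X 1 0 + X 1 j, X 2 0 + X 2 j]
      ([X 1 0 + X 1 j, X 2 0 + X 2 j].map (· - (X 0 0 + X 0 j))) ∧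
    Eqv (L3 j) ((X 0 0 + X 0 j) :: [X 1 0 + X 1 j, X 2 0 + X 2 j]) ∧
    Eqv [X 1 0 + X 1 j, X 2 0 + X 2 j] ([X 1 0 + X 1 j, X 2 0 + X 2 j].map (· - X 0 0)) ∧
    Eqv [X 0 0, X 1 0 + X 1 j, X 2 0 + X 2 j] (X 0 0 :: [X 1 0 + X 1 j, X 2 0 + X 2 j]) ∧
    Eqv [X 0 j, X 1 0 + X 1 j, X 2 0 + X 2 j] ((L3 j).map (· - X 0 0)) ∧
    Eqv [X 0 0, X 1 0 + X 1 j, X 2 0 + X 2 j] (X 0 0 :: L3 j) := by
  decide

lemma dA4 : ∀ j : Fin 3, j ≠ 0 →
    Le [X 0 j, X 1 j, X 2 0 + X 2 j] ((L3 j).map (· - (X 0 0 + X 1 0))) ∧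
    Le (LB j) ((L3 j).map (· - Cl 0)) := by
  decide

/-- Step A: multiplication by `a₁a₂a₃` from `S/(b)` to `S/(ab)` is injective on `Ext^3(-,K)`. -/
lemma stepA (j : Fin 3) (hj : j ≠ 0) :
    ∃ h, IExt (mh (mono K (LB j)) (mono K (L3 j)) (mon K (Cl 0)) h) (N K) 3 := by
  obtain ⟨p1, p2, p3, p4, p5, p6⟩ := dA1 j hj
  obtain ⟨q1, q2, q3, q4, q5, q6⟩ := dA2 j hj
  obtain ⟨r1, r2, r3, r4, r5, r6⟩ := dA3 j hj
  have i1 := IExt.list K (a := X 2 0) (b := X 2 j) (N K) 2 (hN K 2 j) (le_refl _) p1 p2 p3 p4 p5 p6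
  have i2 := IExt.list K (a := X 1 0) (b := X 1 j) (N K) 2 (hN K 1 j) (le_refl _) q1 q2 q3 q4 q5 q6
  have i3 := IExt.list K (a := X 0 0) (b := X 0 j) (N K) 2 (hN K 0 j) (le_refl _) r1 r2 r3 r4 r5 r6
  have h23 : ∀ r, r ∈ mono K [X 0 j, X 1 j, X 2 0 + X 2 j] →
      mon K (X 0 0 + X 1 0) * r ∈ mono K (L3 j) :=
    mul_mem_of K (dA4 j hj).1
  have h123 : ∀ r, r ∈ mono K (LB j) → mon K (Cl 0) * r ∈ mono K (L3 j) :=
    mul_mem_of K (dA4 j hj).2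
  refine ⟨h123, ?_⟩
  have c23 := IExt.comp i2 i3
  rw [mh_comp _ _ _ _ _ _ _ (mon K (X 0 0 + X 1 0)) (mon_mul K _ _).symm h23] at c23
  have c123 := IExt.comp i1 c23
  rw [mh_comp _ _ _ _ _ _ _ (mon K (Cl 0)) (by rw [mon_mul]; rfl) h123] at c123
  exact c123

lemma dB : ∀ j : Fin 3, j ≠ 0 →
    Eqv (LB j) ((L3 j).map (· - Cl 0)) ∧ Eqv (L4 j) (Cl 0 :: L3 j) ∧
    Le [0] ((LB j).map (· - Cl j)) ∧ Le LA ((L3 j).map (· - Cl j)) ∧
    Le LA ((L4 j).map (· - Cl j)) := by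
  decide

lemma isZero_unit : Limits.IsZero (quo (mono K ([0] : List (Fin 9 → ℕ)))) := by
  have h0 : mono K ([0] : List (Fin 9 → ℕ)) = ⊤ := by
    rw [Ideal.eq_top_iff_one]
    have : (1 : MvPolynomial (Fin 9) K) = monomial 0 (1 : K) := rfl
    rw [this, monomial_mem_mono]
    exact ⟨0, by simp, le_refl _⟩
  rw [ModuleCat.isZero_iff_subsingleton, h0]
  exact Ideal.Quotient.subsingleton_iff.2 rfl

lemma lt_unit (m : ℕ) :
    HasProjectiveDimensionLT (quo (mono K ([0] : List (Fin 9 → ℕ)))) m := by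
  have := (isZero_unit K).hasProjectiveDimensionLT_zero
  exact hasProjectiveDimensionLT_of_ge _ 0 _ (Nat.zero_le _)

/-- Step B: multiplication by `b₁b₂b₃` from `S/(a)` to `S/(ab, a₁a₂a₃)` is zero on `Ext^3(-,K)`. -/
lemma stepB (j : Fin 3) (hj : j ≠ 0) :
    ∃ h, ZExt (mh (mono K LA) (mono K (L4 j)) (mon K (Cl j)) h) (N K) 3 := by
  obtain ⟨hA, iA⟩ := stepA K j hj
  obtain ⟨p1, p2, p3, p4, p5⟩ := dB j hj
  have D₁ : ColonData (mono K ([0] : List (Fin 9 → ℕ))) (mono K LA) (mono K LA) (mon K (Cl 0)) :=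
    colonData K (by decide) (by decide)
  have D₂ : ColonData (mono K (LB j)) (mono K (L3 j)) (mono K (L4 j)) (mon K (Cl 0)) :=
    colonData K p1 p2
  have h1 : ∀ r, r ∈ mono K ([0] : List (Fin 9 → ℕ)) → mon K (Cl j) * r ∈ mono K (LB j) :=
    mul_mem_of K p3
  have h2 : ∀ r, r ∈ mono K LA → mon K (Cl j) * r ∈ mono K (L3 j) :=
    mul_mem_of K p4
  have h3 : ∀ r, r ∈ mono K LA → mon K (Cl j) * r ∈ mono K (L4 j) :=
    mul_mem_of K p5
  refine ⟨h3, ?_⟩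
  have hτ := ZExt.of_map D₁.shortExact D₂.shortExact
    (colonMap D₁ D₂ (mon K (Cl j)) (mon K (Cl j)) h1 h2 h3 (by ring)) (N := N K) (t := 2)
    (ZExt.of_lt _ _ _ (Or.inr (lt_unit K 2)))
    (ZExt.of_IExt iA)
  exact hτ

lemma ext_LA : ∃ e : Ext (quo (mono K LA)) (N K) 3, e ≠ 0 := by
  have h0 : ∃ e : Ext (quo (mono K ([] : List (Fin 9 → ℕ)))) (N K) 0, e ≠ 0 :=
    ext_zero_ne_zero _ _ (by rw [mono_nil]; exact bot_le) (mono_ne_top K _ (by decide))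
  have h1 := ext_step_mono K _ (X 2 0) (by decide) _ (hN K 2 0) _ h0
  have h2 := ext_step_mono K _ (X 1 0) (by decide) _ (hN K 1 0) _ h1
  exact ext_step_mono K _ (X 0 0) (by decide) _ (hN K 0 0) _ h2

/-- `J₁ = (x₀₀x₀₁, x₁₀x₁₁, x₂₀x₂₁, C₀, C₁)` -/
def J1 : List (Fin 9 → ℕ) := Cl 1 :: L4 1

lemma D1 : ColonData (mono K LA) (mono K (L4 1)) (mono K J1) (mon K (Cl 1)) :=
  colonData K (by decide) (by decide)

lemma ext_J1 : ∃ e : Ext (quo (mono K J1)) (N K) 4, e ≠ 0 := by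
  obtain ⟨h, hz⟩ := stepB K 1 (by decide)
  exact ext_ne_zero_of_ZExt (D1 K).shortExact hz (ext_LA K)

/-- `(C₀, R₀, R₁, R₂)` -/
def JR : List (Fin 9 → ℕ) := [Cl 0, Rw 0, Rw 1, Rw 2]

/-- `(C₁, C₀, R₀, R₁, R₂)` -/
def J5 : List (Fin 9 → ℕ) := Cl 1 :: JR

/-- all rows and columns -/
def J6 : List (Fin 9 → ℕ) := Cl 2 :: J5

lemma D2 : ColonData (mono K (L4 2)) (mono K JR) (mono K J5) (mon K (Cl 1)) :=
  colonData K (by decide) (by decide)

lemma D3 : ColonData (mono K J1) (mono K J5) (mono K J6) (mon K (Cl 2)) :=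
  colonData K (by decide) (by decide)

/-- `pd S/(C₀, R₀, R₁, R₂) ≤ 3`. -/
lemma lt_JR : HasProjectiveDimensionLT (quo (mono K JR)) 4 := by
  have D : ColonData (mono K [X 0 0 + X 1 0, Rw 0, Rw 1]) (mono K [Cl 0, Rw 0, Rw 1])
      (mono K JR) (mon K (Rw 2)) := colonData K (by decide) (by decide)
  have D' : ColonData (mono K [X 0 0]) (mono K [X 0 0 + X 1 0, Rw 0])
      (mono K [X 0 0 + X 1 0, Rw 0, Rw 1]) (mon K (Rw 1)) := colonData K (by decide) (by decide)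
  exact lt_of_colonData K D 3 (lt_of_colonData K D' 2 (lt_ge K 2 (by decide)) (lt_ge K 3 (by decide)))
    (lt_ge K 4 (by decide))

/-- Step C: multiplication by `C₂` from `S/J₁` to `S/J₅` is zero on `Ext^4(-,K)`. -/
lemma stepC : ∃ h, ZExt (mh (mono K J1) (mono K J5) (mon K (Cl 2)) h) (N K) 4 := by
  obtain ⟨h1, hz⟩ := stepB K 2 (by decide)
  have h2 : ∀ r, r ∈ mono K (L4 1) → mon K (Cl 2) * r ∈ mono K JR := mul_mem_of K (by decide)
  have h3 : ∀ r, r ∈ mono K J1 → mon K (Cl 2) * r ∈ mono K J5 := mul_mem_of K (by decide)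
  refine ⟨h3, ?_⟩
  have hτ := ZExt.of_map (D1 K).shortExact (D2 K).shortExact
    (colonMap (D1 K) (D2 K) (mon K (Cl 2)) (mon K (Cl 2)) h1 h2 h3 (by ring)) (N := N K) (t := 3)
    hz (ZExt.of_lt _ _ _ (Or.inr (lt_JR K)))
  exact hτ

lemma ext_J6 : ∃ e : Ext (quo (mono K J6)) (N K) 5, e ≠ 0 := by
  obtain ⟨h, hz⟩ := stepC K
  exact ext_ne_zero_of_ZExt (D3 K).shortExact hz (ext_J1 K)

lemma not_lt_J6 : ¬ HasProjectiveDimensionLT (quo (mono K J6)) 5 :=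
  not_lt_of_ext_ne_zero _ (N K) 5 (ext_J6 K)

lemma lt_J6 : HasProjectiveDimensionLT (quo (mono K J6)) 6 :=
  lt_of_colonData K (D3 K) 5
    (lt_of_colonData K (D1 K) 4 (lt_ge K 4 (by decide)) (lt_ge K 5 (by decide)))
    (lt_ge K 6 (by decide))

/-- The projective dimension of `S/I`, `I` the ideal of rows and columns of the `3 × 3` grid. -/
theorem pdim : projectiveDimension (quo (mono K J6)) = 5 :=
  le_antisymm ((projectiveDimension_le_iff _ 5).2 (lt_J6 K))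
    ((projectiveDimension_ge_iff _ 5).2 (not_lt_J6 K))

end Grid

end Pool.Agent.Lib.MP_718c62_al
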