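import Pool.Agent.Lib.MP_718c62_al.PD

/-!
# Monomial ideals given by finite lists of exponent vectors, and projective dimension
-/

set_option autoImplicit false

open CategoryTheory Abelian MvPolynomial

universe u

namespace Pool.Agent.Lib.MP_718c62_al

section MV

variable {R : Type u} [CommRing R]

lemma prod_lt (A B : Ideal R) (n : ℕ)
    (hA : HasProjectiveDimensionLT (quo A) n) (hB : HasProjectiveDimensionLT (quo B) n) :
    HasProjectiveDimensionLT (ModuleCat.of R ((R ⧸ A) × (R ⧸ B))) n := by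
  let a : (R ⧸ A) →ₗ[R] ((R ⧸ A) × (R ⧸ B)) := LinearMap.inl R _ _
  let b : ((R ⧸ A) × (R ⧸ B)) →ₗ[R] (R ⧸ B) := LinearMap.snd R _ _
  have hex : Function.Exact a b := Function.Exact.inl_snd
  let S := ModuleCat.shortComplexOfCompEqZero a b hex.linearMap_comp_eq_zero
  have hS : S.ShortExact :=
    { exact := ModuleCat.shortComplex_exact _ hex
      mono_f := by
        change Mono (ModuleCat.ofHom a)
        rw [ModuleCat.mono_iff_injective]
        exact LinearMap.inl_injective
      epi_g := by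
        change Epi (ModuleCat.ofHom b)
        rw [ModuleCat.epi_iff_surjective]
        exact LinearMap.snd_surjective }
  exact hS.hasProjectiveDimensionLT_X₂ n hA hB

/-- The components of a product of cyclic modules are direct factors. -/
lemma lt_of_prod_left (A B : Ideal R) (n : ℕ)
    (h : HasProjectiveDimensionLT (ModuleCat.of R ((R ⧸ A) × (R ⧸ B))) n) :
    HasProjectiveDimensionLT (quo A) n := by
  have r : Retract (quo A) (ModuleCat.of R ((R ⧸ A) × (R ⧸ B))) :=
    { i := ModuleCat.ofHom (LinearMap.inl R _ _)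
      r := ModuleCat.ofHom (LinearMap.fst R _ _)
      retract := by
        rw [← ModuleCat.ofHom_comp]
        rfl }
  exact r.hasProjectiveDimensionLT n

/-- The Mayer-Vietoris sequence `0 → R/(A ∩ B) → R/A × R/B → R/(A+B) → 0`. -/
lemma mv_shortExact (A B : Ideal R) :
    ∃ (S : ShortComplex (ModuleCat.{u} R)), S.ShortExact ∧
      S.X₁ = quo (A ⊓ B) ∧ S.X₂ = ModuleCat.of R ((R ⧸ A) × (R ⧸ B)) ∧ S.X₃ = quo (A ⊔ B) := by
  let a : (R ⧸ (A ⊓ B)) →ₗ[R] ((R ⧸ A) × (R ⧸ B)) :=
    LinearMap.prod (Submodule.mapQ (A ⊓ B) A LinearMap.id inf_le_left)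
      (Submodule.mapQ (A ⊓ B) B LinearMap.id inf_le_right)
  let b : ((R ⧸ A) × (R ⧸ B)) →ₗ[R] (R ⧸ (A ⊔ B)) :=
    (Submodule.mapQ A (A ⊔ B) LinearMap.id le_sup_left).comp (LinearMap.fst R _ _) -
      (Submodule.mapQ B (A ⊔ B) LinearMap.id le_sup_right).comp (LinearMap.snd R _ _)
  have ha : ∀ r : R, a (Submodule.Quotient.mk r) =
      (Submodule.Quotient.mk r, Submodule.Quotient.mk r) := fun r => rfl
  have hb : ∀ r s : R, b (Submodule.Quotient.mk r, Submodule.Quotient.mk s) =
      Submodule.Quotient.mk (r - s) := fun r s => rfl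
  have hex : Function.Exact a b := by
    rintro ⟨y, z⟩
    obtain ⟨y, rfl⟩ := Submodule.Quotient.mk_surjective A y
    obtain ⟨z, rfl⟩ := Submodule.Quotient.mk_surjective B z
    constructor
    · intro hy
      rw [hb, Submodule.Quotient.mk_eq_zero, Submodule.mem_sup] at hy
      obtain ⟨p, hp, q, hq, hpq⟩ := hy
      refine ⟨Submodule.Quotient.mk (y - p), ?_⟩
      rw [ha, Prod.mk.injEq, Submodule.Quotient.eq, Submodule.Quotient.eq]
      constructor
      · have : y - p - y = -p := by ring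
        rw [this]
        exact A.neg_mem hp
      · have : y - p - z = q := by rw [← sub_eq_iff_eq_add'.2 hpq.symm]; ring
        rw [this]
        exact hq
    · rintro ⟨x, hx⟩
      obtain ⟨x, rfl⟩ := Submodule.Quotient.mk_surjective (A ⊓ B) x
      rw [← hx, ha, hb, sub_self]
      rfl
  have hinj : Function.Injective a := by
    rw [injective_iff_map_eq_zero]
    intro x hx
    obtain ⟨x, rfl⟩ := Submodule.Quotient.mk_surjective (A ⊓ B) x
    rw [ha, Prod.mk_eq_zero, Submodule.Quotient.mk_eq_zero, Submodule.Quotient.mk_eq_zero] at hx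
    rw [Submodule.Quotient.mk_eq_zero]
    exact hx
  have hsurj : Function.Surjective b := by
    intro y
    obtain ⟨y, rfl⟩ := Submodule.Quotient.mk_surjective (A ⊔ B) y
    refine ⟨(Submodule.Quotient.mk y, Submodule.Quotient.mk 0), ?_⟩
    rw [hb, sub_zero]
  refine ⟨ModuleCat.shortComplexOfCompEqZero a b hex.linearMap_comp_eq_zero, ?_, rfl, rfl, rfl⟩
  exact
    { exact := ModuleCat.shortComplex_exact _ hex
      mono_f := by simpa [ModuleCat.mono_iff_injective] using hinj
      epi_g := by simpa [ModuleCat.epi_iff_surjective] using hsurj }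

lemma mv_lt_sup (A B : Ideal R) (n : ℕ) (h : HasProjectiveDimensionLT (quo (A ⊓ B)) n)
    (hA : HasProjectiveDimensionLT (quo A) (n + 1))
    (hB : HasProjectiveDimensionLT (quo B) (n + 1)) :
    HasProjectiveDimensionLT (quo (A ⊔ B)) (n + 1) := by
  obtain ⟨S, hS, e1, e2, e3⟩ := mv_shortExact A B
  have h2 := prod_lt A B (n + 1) hA hB
  rw [← e1] at h
  rw [← e2] at h2
  rw [← e3]
  exact hS.hasProjectiveDimensionLT_X₃ n h h2

lemma mv_lt_inf (A B : Ideal R) (n : ℕ) (h : HasProjectiveDimensionLT (quo (A ⊔ B)) (n + 1))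
    (hA : HasProjectiveDimensionLT (quo A) n)
    (hB : HasProjectiveDimensionLT (quo B) n) :
    HasProjectiveDimensionLT (quo (A ⊓ B)) n := by
  obtain ⟨S, hS, e1, e2, e3⟩ := mv_shortExact A B
  have h2 := prod_lt A B n hA hB
  rw [← e3] at h
  rw [← e2] at h2
  rw [← e1]
  exact hS.hasProjectiveDimensionLT_X₁ n h2 h

end MV

section Mono

variable {n : ℕ}

/-- Divisibility of exponent vectors is decidable. -/
instance decVecLE (a b : Fin n → ℕ) : Decidable (a ≤ b) :=
  inferInstanceAs (Decidable (∀ i, a i ≤ b i))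

/-- Exponent vector as a finitely supported function. -/
noncomputable def vec (a : Fin n → ℕ) : Fin n →₀ ℕ := Finsupp.equivFunOnFinite.symm a

@[simp] lemma coe_vec (a : Fin n → ℕ) : ⇑(vec a) = a := rfl

lemma vec_injective : Function.Injective (vec : (Fin n → ℕ) → _) :=
  Finsupp.equivFunOnFinite.symm.injective

lemma vec_coe (m : Fin n →₀ ℕ) : vec (⇑m) = m := Finsupp.equivFunOnFinite.symm_apply_apply m

variable (K : Type u) [Field K]

/-- The monomial ideal generated by the monomials with exponent vectors in the list `L`. -/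
noncomputable def mono (L : List (Fin n → ℕ)) : Ideal (MvPolynomial (Fin n) K) :=
  Ideal.span ((fun a => monomial a (1 : K)) '' {a | ∃ b ∈ L, a = vec b})

lemma mem_mono (L : List (Fin n → ℕ)) (p : MvPolynomial (Fin n) K) :
    p ∈ mono K L ↔ ∀ m ∈ p.support, ∃ b ∈ L, b ≤ ⇑m := by
  unfold mono
  rw [MvPolynomial.mem_ideal_span_monomial_image]
  refine forall₂_congr fun m _ => ?_
  constructor
  · rintro ⟨_, ⟨b, hb, rfl⟩, h⟩
    exact ⟨b, hb, h⟩
  · rintro ⟨b, hb, h⟩
    exact ⟨vec b, ⟨b, hb, rfl⟩, h⟩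

lemma monomial_mem_mono (L : List (Fin n → ℕ)) (m : Fin n →₀ ℕ) :
    monomial m (1 : K) ∈ mono K L ↔ ∃ b ∈ L, b ≤ ⇑m := by
  classical
  rw [mem_mono, MvPolynomial.support_monomial, if_neg one_ne_zero]
  simp

lemma colon_mono (L : List (Fin n → ℕ)) (f : Fin n → ℕ) (r : MvPolynomial (Fin n) K) :
    r ∈ mono K (L.map (· - f)) ↔ monomial (vec f) (1 : K) * r ∈ mono K L := by
  rw [mem_mono, mem_mono]
  constructor
  · intro h m hm
    rw [MvPolynomial.mem_support_iff, MvPolynomial.coeff_monomial_mul'] at hm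
    split_ifs at hm with hle
    · rw [one_mul] at hm
      obtain ⟨b, hb, hbm⟩ := h (m - vec f) (MvPolynomial.mem_support_iff.2 hm)
      obtain ⟨c, hc, rfl⟩ := List.mem_map.1 hb
      refine ⟨c, hc, fun i => ?_⟩
      have h1 : c i - f i ≤ m i - f i := hbm i
      have h2 : f i ≤ m i := hle i
      change c i ≤ m i
      omega
    · exact absurd rfl hm
  · intro h m hm
    have h1 : vec f + m ∈ (monomial (vec f) (1 : K) * r).support := by
      rw [MvPolynomial.mem_support_iff, MvPolynomial.coeff_monomial_mul, one_mul]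
      exact MvPolynomial.mem_support_iff.1 hm
    obtain ⟨b, hb, hbm⟩ := h _ h1
    refine ⟨b - f, List.mem_map.2 ⟨b, hb, rfl⟩, fun i => ?_⟩
    have h2 := hbm i
    simp only [Pi.sub_apply, Finsupp.coe_add, Pi.add_apply, coe_vec] at h2 ⊢
    omega

lemma mono_cons (f : Fin n → ℕ) (L : List (Fin n → ℕ)) :
    mono K (f :: L) = mono K L ⊔ Ideal.span {monomial (vec f) (1 : K)} := by
  unfold mono
  rw [← Ideal.span_union, ← Set.image_singleton (f := fun a => monomial a (1 : K)),
    ← Set.image_union]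
  congr 2
  ext a
  simp only [List.mem_cons, Set.mem_ofPred_eq, Set.mem_union, Set.mem_singleton_iff]
  constructor
  · rintro ⟨b, hb | hb, rfl⟩
    · exact Or.inr (by rw [hb])
    · exact Or.inl ⟨b, hb, rfl⟩
  · rintro (⟨b, hb, rfl⟩ | rfl)
    · exact ⟨b, Or.inr hb, rfl⟩
    · exact ⟨f, Or.inl rfl, rfl⟩

lemma mono_congr (L L' : List (Fin n → ℕ)) (h : ∀ a ∈ L, ∃ b ∈ L', b ≤ a)
    (h' : ∀ b ∈ L', ∃ a ∈ L, a ≤ b) : mono K L = mono K L' := by
  ext p
  rw [mem_mono, mem_mono]
  refine forall₂_congr fun m _ => ?_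
  constructor
  · rintro ⟨a, ha, ham⟩
    obtain ⟨b, hb, hba⟩ := h a ha
    exact ⟨b, hb, hba.trans ham⟩
  · rintro ⟨b, hb, hbm⟩
    obtain ⟨a, ha, hab⟩ := h' b hb
    exact ⟨a, ha, hab.trans hbm⟩

/-- Pairwise least common multiples. -/
def lcms (L L' : List (Fin n → ℕ)) : List (Fin n → ℕ) := L.flatMap fun a => L'.map fun b => a ⊔ b

lemma mono_inf (L L' : List (Fin n → ℕ)) : mono K L ⊓ mono K L' = mono K (lcms L L') := by
  ext p
  rw [Ideal.mem_inf, mem_mono, mem_mono, mem_mono]
  constructor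
  · rintro ⟨h, h'⟩ m hm
    obtain ⟨a, ha, ham⟩ := h m hm
    obtain ⟨b, hb, hbm⟩ := h' m hm
    exact ⟨a ⊔ b, List.mem_flatMap.2 ⟨a, ha, List.mem_map.2 ⟨b, hb, rfl⟩⟩, sup_le ham hbm⟩
  · intro h
    constructor <;> intro m hm
    · obtain ⟨c, hc, hcm⟩ := h m hm
      obtain ⟨a, ha, hc⟩ := List.mem_flatMap.1 hc
      obtain ⟨b, hb, rfl⟩ := List.mem_map.1 hc
      exact ⟨a, ha, le_sup_left.trans hcm⟩
    · obtain ⟨c, hc, hcm⟩ := h m hm
      obtain ⟨a, ha, hc⟩ := List.mem_flatMap.1 hc
      obtain ⟨b, hb, rfl⟩ := List.mem_map.1 hc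
      exact ⟨b, hb, le_sup_right.trans hcm⟩

lemma mono_sup (L L' : List (Fin n → ℕ)) : mono K L ⊔ mono K L' = mono K (L ++ L') := by
  unfold mono
  rw [← Ideal.span_union, ← Set.image_union]
  congr 2
  ext a
  simp only [List.mem_append, Set.mem_ofPred_eq, Set.mem_union]
  constructor
  · rintro (⟨b, hb, rfl⟩ | ⟨b, hb, rfl⟩)
    · exact ⟨b, Or.inl hb, rfl⟩
    · exact ⟨b, Or.inr hb, rfl⟩
  · rintro ⟨b, hb | hb, rfl⟩
    · exact Or.inl ⟨b, hb, rfl⟩
    · exact Or.inr ⟨b, hb, rfl⟩

lemma mono_nil : mono K ([] : List (Fin n → ℕ)) = ⊥ := by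
  unfold mono
  simp

/-- `pd S/I` is at most the number of generators of the monomial ideal `I`. -/
lemma lt_length (L : List (Fin n → ℕ)) :
    HasProjectiveDimensionLT (quo (mono K L)) (L.length + 1) := by
  generalize hk : L.length = k
  induction k generalizing L with
  | zero =>
    obtain rfl := List.length_eq_zero_iff.1 hk
    rw [mono_nil, zero_add]
    have e : (MvPolynomial (Fin n) K) ≃ₗ[MvPolynomial (Fin n) K]
        ((MvPolynomial (Fin n) K) ⧸ (⊥ : Ideal (MvPolynomial (Fin n) K))) :=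
      (Submodule.quotEquivOfEqBot ⊥ rfl).symm
    have : Module.Projective (MvPolynomial (Fin n) K)
        ((MvPolynomial (Fin n) K) ⧸ (⊥ : Ideal (MvPolynomial (Fin n) K))) :=
      Module.Projective.of_equiv e
    rw [← projective_iff_hasProjectiveDimensionLT_one, ← IsProjective.iff_projective]
    exact this
  | succ k ih =>
    obtain ⟨f, L, rfl⟩ : ∃ f L', L = f :: L' := by
      cases L with
      | nil => simp at hk
      | cons f L => exact ⟨f, L, rfl⟩
    have hk' : L.length = k := by simpa using hk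
    exact lt_sum (monomial (vec f) (1 : K)) (colon_mono K L f) (mono_cons K f L) (k + 1)
      (ih (L.map (· - f)) (by simpa using hk'))
      (have := ih L hk'; hasProjectiveDimensionLT_of_ge _ (k + 1) _ (by omega))

end Mono

end Pool.Agent.Lib.MP_718c62_al
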