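import Mathlib

/-!
# Projective dimension of cyclic modules: colon sequences and regular elements
-/

set_option autoImplicit false

open CategoryTheory Abelian

universe u

namespace Pool.Agent.Lib.MP_718c62_al

section Ring

variable {R : Type u} [CommRing R]

/-- The module `R / J` as an object of the category of `R`-modules. -/
noncomputable abbrev quo (J : Ideal R) : ModuleCat.{u} R := ModuleCat.of R (R ⧸ J)

/-- The colon sequence `0 → R/J' → R/J → R/J'' → 0`, the first map being multiplication by `f`. -/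
lemma colon_shortExact (J' J J'' : Ideal R) (f : R)
    (h1 : ∀ r, r ∈ J' ↔ f * r ∈ J) (h2 : J'' = J ⊔ Ideal.span {f}) :
    ∃ (S : ShortComplex (ModuleCat.{u} R)), S.ShortExact ∧
      S.X₁ = quo J' ∧ S.X₂ = quo J ∧ S.X₃ = quo J'' := by
  let a : (R ⧸ J') →ₗ[R] (R ⧸ J) :=
    Submodule.mapQ J' J (LinearMap.mulLeft R f) (fun r hr => (h1 r).1 hr)
  have hle : J ≤ J'' := h2 ▸ le_sup_left
  let b : (R ⧸ J) →ₗ[R] (R ⧸ J'') := Submodule.mapQ J J'' LinearMap.id hle
  have ha : ∀ r : R, a (Submodule.Quotient.mk r) = Submodule.Quotient.mk (f * r) := fun r => rfl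
  have hb : ∀ r : R, b (Submodule.Quotient.mk r) = Submodule.Quotient.mk r := fun r => rfl
  have hex : Function.Exact a b := by
    intro y
    obtain ⟨y, rfl⟩ := Submodule.Quotient.mk_surjective J y
    constructor
    · intro hy
      rw [hb, Submodule.Quotient.mk_eq_zero, h2, Submodule.mem_sup] at hy
      obtain ⟨j, hj, z, hz, rfl⟩ := hy
      obtain ⟨c, rfl⟩ := Ideal.mem_span_singleton'.1 hz
      refine ⟨Submodule.Quotient.mk c, ?_⟩
      rw [ha, Submodule.Quotient.eq]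
      have : f * c - (j + c * f) = -j := by ring
      rw [this]
      exact J.neg_mem hj
    · rintro ⟨x, hx⟩
      obtain ⟨x, rfl⟩ := Submodule.Quotient.mk_surjective J' x
      rw [← hx, ha, hb, Submodule.Quotient.mk_eq_zero, h2]
      exact Ideal.mul_mem_right _ _ (Ideal.mem_sup_right (Ideal.mem_span_singleton_self f))
  have hinj : Function.Injective a := by
    rw [injective_iff_map_eq_zero]
    intro x hx
    obtain ⟨x, rfl⟩ := Submodule.Quotient.mk_surjective J' x
    rw [ha, Submodule.Quotient.mk_eq_zero] at hx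
    rw [Submodule.Quotient.mk_eq_zero]
    exact (h1 x).2 hx
  have hsurj : Function.Surjective b := by
    intro y
    obtain ⟨y, rfl⟩ := Submodule.Quotient.mk_surjective J'' y
    exact ⟨Submodule.Quotient.mk y, rfl⟩
  refine ⟨ModuleCat.shortComplexOfCompEqZero a b hex.linearMap_comp_eq_zero, ?_, rfl, rfl, rfl⟩
  exact
    { exact := ModuleCat.shortComplex_exact _ hex
      mono_f := by simpa [ModuleCat.mono_iff_injective] using hinj
      epi_g := by simpa [ModuleCat.epi_iff_surjective] using hsurj }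

/-- `pd R/(J+f) ≤ max (pd R/J) (pd R/(J:f) + 1)`. -/
lemma lt_sum {J' J J'' : Ideal R} (f : R)
    (h1 : ∀ r, r ∈ J' ↔ f * r ∈ J) (h2 : J'' = J ⊔ Ideal.span {f}) (n : ℕ)
    (hJ' : HasProjectiveDimensionLT (quo J') n) (hJ : HasProjectiveDimensionLT (quo J) (n + 1)) :
    HasProjectiveDimensionLT (quo J'') (n + 1) := by
  obtain ⟨S, hS, e1, e2, e3⟩ := colon_shortExact J' J J'' f h1 h2
  rw [← e1] at hJ'
  rw [← e2] at hJ
  rw [← e3]
  exact hS.hasProjectiveDimensionLT_X₃ n hJ' hJ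

/-- `pd R/(J:f) ≤ max (pd R/J) (pd R/(J+f) - 1)`. -/
lemma lt_colon {J' J J'' : Ideal R} (f : R)
    (h1 : ∀ r, r ∈ J' ↔ f * r ∈ J) (h2 : J'' = J ⊔ Ideal.span {f}) (n : ℕ)
    (hJ : HasProjectiveDimensionLT (quo J) n) (hJ'' : HasProjectiveDimensionLT (quo J'') (n + 1)) :
    HasProjectiveDimensionLT (quo J') n := by
  obtain ⟨S, hS, e1, e2, e3⟩ := colon_shortExact J' J J'' f h1 h2
  rw [← e3] at hJ''
  rw [← e2] at hJ
  rw [← e1]
  exact hS.hasProjectiveDimensionLT_X₁ n hJ hJ''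

/-- `pd R/J ≤ max (pd R/(J:f)) (pd R/(J+f))`. -/
lemma lt_mid {J' J J'' : Ideal R} (f : R)
    (h1 : ∀ r, r ∈ J' ↔ f * r ∈ J) (h2 : J'' = J ⊔ Ideal.span {f}) (n : ℕ)
    (hJ' : HasProjectiveDimensionLT (quo J') n) (hJ'' : HasProjectiveDimensionLT (quo J'') n) :
    HasProjectiveDimensionLT (quo J) n := by
  obtain ⟨S, hS, e1, e2, e3⟩ := colon_shortExact J' J J'' f h1 h2
  rw [← e3] at hJ''
  rw [← e1] at hJ'
  rw [← e2]
  exact hS.hasProjectiveDimensionLT_X₂ n hJ' hJ''

/-- The sequence `0 → R/J → R/J → R/J'' → 0` for an element `f` regular modulo `J`. -/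
lemma reg_shortExact (J J'' : Ideal R) (f : R)
    (h1 : ∀ r, f * r ∈ J → r ∈ J) (h2 : J'' = J ⊔ Ideal.span {f}) :
    ∃ (g : quo J ⟶ quo J'') (w : (f • 𝟙 (quo J)) ≫ g = 0),
      (ShortComplex.mk (f • 𝟙 (quo J)) g w).ShortExact := by
  let a : (R ⧸ J) →ₗ[R] (R ⧸ J) := f • LinearMap.id
  have hle : J ≤ J'' := h2 ▸ le_sup_left
  let b : (R ⧸ J) →ₗ[R] (R ⧸ J'') := Submodule.mapQ J J'' LinearMap.id hle
  have ha : ∀ r : R, a (Submodule.Quotient.mk r) = Submodule.Quotient.mk (f * r) := fun r => rfl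
  have hb : ∀ r : R, b (Submodule.Quotient.mk r) = Submodule.Quotient.mk r := fun r => rfl
  have hex : Function.Exact a b := by
    intro y
    obtain ⟨y, rfl⟩ := Submodule.Quotient.mk_surjective J y
    constructor
    · intro hy
      rw [hb, Submodule.Quotient.mk_eq_zero, h2, Submodule.mem_sup] at hy
      obtain ⟨j, hj, z, hz, rfl⟩ := hy
      obtain ⟨c, rfl⟩ := Ideal.mem_span_singleton'.1 hz
      refine ⟨Submodule.Quotient.mk c, ?_⟩
      rw [ha, Submodule.Quotient.eq]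
      have : f * c - (j + c * f) = -j := by ring
      rw [this]
      exact J.neg_mem hj
    · rintro ⟨x, hx⟩
      obtain ⟨x, rfl⟩ := Submodule.Quotient.mk_surjective J x
      rw [← hx, ha, hb, Submodule.Quotient.mk_eq_zero, h2]
      exact Ideal.mul_mem_right _ _ (Ideal.mem_sup_right (Ideal.mem_span_singleton_self f))
  have hinj : Function.Injective a := by
    rw [injective_iff_map_eq_zero]
    intro x hx
    obtain ⟨x, rfl⟩ := Submodule.Quotient.mk_surjective J x
    rw [ha, Submodule.Quotient.mk_eq_zero] at hx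
    rw [Submodule.Quotient.mk_eq_zero]
    exact h1 x hx
  have hsurj : Function.Surjective b := by
    intro y
    obtain ⟨y, rfl⟩ := Submodule.Quotient.mk_surjective J'' y
    exact ⟨Submodule.Quotient.mk y, rfl⟩
  have e1 : ModuleCat.ofHom a = f • 𝟙 (quo J) := rfl
  refine ⟨ModuleCat.ofHom b, ?_, ?_⟩
  · rw [← e1, ← ModuleCat.ofHom_comp, hex.linearMap_comp_eq_zero]
    rfl
  · exact
      { exact := ModuleCat.shortComplex_exact _ hex
        mono_f := by
          change Mono (ModuleCat.ofHom a)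
          simpa [ModuleCat.mono_iff_injective] using hinj
        epi_g := by
          change Epi (ModuleCat.ofHom b)
          simpa [ModuleCat.epi_iff_surjective] using hsurj }

/-- If `f` is regular modulo `J`, kills `N` and `Ext^t(R/J,N) ≠ 0`, then
`Ext^{t+1}(R/(J+f),N) ≠ 0`. -/
lemma ext_ne_zero_step (J J'' : Ideal R) (f : R)
    (h1 : ∀ r, f * r ∈ J → r ∈ J) (h2 : J'' = J ⊔ Ideal.span {f})
    (N : ModuleCat.{u} R) (hN : (f • 𝟙 N) = 0) (t : ℕ)
    (hJ : ∃ e : Ext (quo J) N t, e ≠ 0) :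
    ∃ e' : Ext (quo J'') N (t + 1), e' ≠ 0 := by
  obtain ⟨g, w, hS⟩ := reg_shortExact J J'' f h1 h2
  obtain ⟨e, he⟩ := hJ
  refine ⟨hS.extClass.comp e (add_comm 1 t), fun h0 => he ?_⟩
  obtain ⟨x, hx⟩ := Ext.contravariant_sequence_exact₁ hS N e (add_comm 1 t) h0
  rw [← hx]
  change (Ext.mk₀ (f • 𝟙 (quo J))).comp x (zero_add t) = 0
  have key : (Ext.mk₀ (f • 𝟙 (quo J))).comp x (zero_add t) =
      x.comp (Ext.mk₀ (f • 𝟙 N)) (add_zero t) := by
    rw [Ext.mk₀_smul, Ext.mk₀_smul, Ext.smul_comp, Ext.comp_smul, Ext.mk₀_id_comp, Ext.comp_mk₀_id]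
  rw [key, hN, Ext.mk₀_zero, Ext.comp_zero]

end Ring

end Pool.Agent.Lib.MP_718c62_al
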