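import Pool.Agent.Lib.MP_718c62_al.Mono

/-!
# Stanley decompositions, Stanley depth, Stanley projective dimension
-/

set_option autoImplicit false

open CategoryTheory Abelian MvPolynomial

universe u

namespace Pool.Agent.Lib.MP_718c62_al

section Defs

variable {K : Type u} [Field K] {n : ℕ}

/-- `I` is a monomial ideal: it is generated by a set of monomials. -/
def IsMonomialIdeal (I : Ideal (MvPolynomial (Fin n) K)) : Prop :=
  ∃ A : Set (Fin n →₀ ℕ), I = Ideal.span ((fun a => monomial a (1 : K)) '' A)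

/-- The set of (exponent vectors of) minimal monomial generators of a monomial ideal `I`: the
monomials in `I` that are minimal with respect to divisibility among the monomials in `I`. -/
def minimalGenerators (I : Ideal (MvPolynomial (Fin n) K)) : Set (Fin n →₀ ℕ) :=
  {a | Minimal (fun b : Fin n →₀ ℕ => monomial b (1 : K) ∈ I) a}

/-- The (exponent vectors of the) monomials in the space `u K[Z]`, i.e. the products `u m` with `m`
a monomial in the variables of `Z`. -/
def stanleySpace (u : Fin n →₀ ℕ) (Z : Finset (Fin n)) : Set (Fin n →₀ ℕ) :=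
  {a | ∃ m : Fin n →₀ ℕ, m.support ⊆ Z ∧ a = u + m}

/-- The finite family `(u i, Z i)` is a Stanley decomposition of `S/I`: the monomials of `S` not in
`I` are the disjoint union of the monomial sets of the spaces `(u i) K[Z i]`. -/
structure IsStanleyDecomposition (I : Ideal (MvPolynomial (Fin n) K)) {r : ℕ}
    (u : Fin r → (Fin n →₀ ℕ)) (Z : Fin r → Finset (Fin n)) : Prop where
  disjoint : Pairwise fun i j => Disjoint (stanleySpace (u i) (Z i)) (stanleySpace (u j) (Z j))
  cover : (⋃ i, stanleySpace (u i) (Z i)) = {a | monomial a (1 : K) ∉ I}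

/-- The Stanley depth of `S/I` (for a proper monomial ideal `I`): the largest `d` such that some
Stanley decomposition `(u i, Z i)` of `S/I` has `|Z i| ≥ d` for all `i`, in other words the maximum
of `min |Z i|` over all Stanley decompositions. -/
noncomputable def sdepth (I : Ideal (MvPolynomial (Fin n) K)) : ℕ :=
  sSup {d : ℕ | ∃ (r : ℕ) (u : Fin r → (Fin n →₀ ℕ)) (Z : Fin r → Finset (Fin n)),
    IsStanleyDecomposition I u Z ∧ ∀ i, d ≤ (Z i).card}

/-- The Stanley projective dimension `n - sdepth S/I`. -/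
noncomputable def spdim (I : Ideal (MvPolynomial (Fin n) K)) : ℕ := n - sdepth I

end Defs

section Lemmas

variable {n : ℕ}

/-- Indicator exponent vector of a set of variables. -/
def indv (F : Finset (Fin n)) : Fin n → ℕ := fun i => if i ∈ F then 1 else 0

lemma indv_le_iff (F : Finset (Fin n)) (a : Fin n →₀ ℕ) : indv F ≤ ⇑a ↔ F ⊆ a.support := by
  constructor
  · intro h i hi
    have h1 : indv F i ≤ a i := h i
    rw [indv, if_pos hi] at h1
    rw [Finsupp.mem_support_iff]
    omega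
  · intro h i
    change indv F i ≤ a i
    unfold indv
    split_ifs with hi
    · have := Finsupp.mem_support_iff.1 (h hi)
      omega
    · exact Nat.zero_le _

lemma mem_space_indv (F Z : Finset (Fin n)) (h : F ⊆ Z) (a : Fin n →₀ ℕ) :
    a ∈ stanleySpace (vec (indv F)) Z ↔ F ⊆ a.support ∧ a.support ⊆ Z := by
  constructor
  · rintro ⟨m, hm, rfl⟩
    constructor
    · intro i hi
      rw [Finsupp.mem_support_iff, Finsupp.add_apply, coe_vec, indv, if_pos hi]
      omega
    · intro i hi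
      rw [Finsupp.mem_support_iff, Finsupp.add_apply, coe_vec, indv] at hi
      by_cases hF : i ∈ F
      · exact h hF
      · rw [if_neg hF, zero_add] at hi
        exact hm (Finsupp.mem_support_iff.2 hi)
  · rintro ⟨h1, h2⟩
    refine ⟨a - vec (indv F), ?_, ?_⟩
    · intro i hi
      rw [Finsupp.mem_support_iff, Finsupp.tsub_apply] at hi
      exact h2 (Finsupp.mem_support_iff.2 (by omega))
    · exact (add_tsub_cancel_of_le (show vec (indv F) ≤ a from (indv_le_iff F a).2 h1)).symm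

variable (K : Type u) [Field K]

/-- A partition of the squarefree poset into intervals gives a Stanley decomposition. -/
lemma isStanleyDecomposition_of_intervals (G : List (Finset (Fin n))) {r : ℕ}
    (F Z : Fin r → Finset (Fin n)) (hFZ : ∀ i, F i ⊆ Z i)
    (h1 : ∀ s : Finset (Fin n), (¬ ∃ g ∈ G, g ⊆ s) ↔ ∃ i, F i ⊆ s ∧ s ⊆ Z i)
    (h2 : ∀ (s : Finset (Fin n)) (i j : Fin r), F i ⊆ s → s ⊆ Z i → F j ⊆ s → s ⊆ Z j → i = j) :
    IsStanleyDecomposition (mono K (G.map indv)) (fun i => vec (indv (F i))) Z where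
  disjoint := by
    intro i j hij
    rw [Set.disjoint_left]
    intro a ha hb
    rw [mem_space_indv _ _ (hFZ _)] at ha hb
    exact hij (h2 a.support i j ha.1 ha.2 hb.1 hb.2)
  cover := by
    ext a
    rw [Set.mem_iUnion]
    simp only [mem_space_indv _ _ (hFZ _), Set.mem_ofPred_eq, monomial_mem_mono]
    rw [← h1 a.support]
    simp only [List.mem_map, exists_exists_and_eq_and, indv_le_iff]

/-- A squarefree monomial `T` outside `I` that is maximal bounds the Stanley depth. -/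
lemma le_card_of_facet (G : List (Finset (Fin n))) (T : Finset (Fin n))
    (hT : ∀ s : Finset (Fin n), T ⊆ s → (¬ ∃ g ∈ G, g ⊆ s) → s = T) (hT' : ¬ ∃ g ∈ G, g ⊆ T)
    {r : ℕ} (u : Fin r → (Fin n →₀ ℕ)) (Z : Fin r → Finset (Fin n))
    (h : IsStanleyDecomposition (mono K (G.map indv)) u Z) : ∃ i, Z i = T := by
  set N : ℕ := 1 + ∑ i, ∑ j, u i j with hN
  have hu : ∀ i j, u i j < N := by
    intro i j
    have h1 : u i j ≤ ∑ j, u i j := Finset.single_le_sum (fun _ _ => Nat.zero_le _) (Finset.mem_univ j)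
    have h2 : ∑ j, u i j ≤ ∑ i, ∑ j, u i j :=
      Finset.single_le_sum (f := fun i => ∑ j, u i j) (fun _ _ => Nat.zero_le _) (Finset.mem_univ i)
    omega
  set a : Fin n →₀ ℕ := vec (fun j => if j ∈ T then N else 0) with ha
  have hsupp : a.support = T := by
    ext j
    rw [Finsupp.mem_support_iff, ha, coe_vec]
    by_cases hj : j ∈ T
    · simp only [hj, if_true, iff_true]; omega
    · simp [hj]
  have hmem : a ∈ ⋃ i, stanleySpace (u i) (Z i) := by
    rw [h.cover, Set.mem_ofPred_eq, monomial_mem_mono]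
    rintro ⟨b, hb, hba⟩
    obtain ⟨g, hg, rfl⟩ := List.mem_map.1 hb
    rw [indv_le_iff, hsupp] at hba
    exact hT' ⟨g, hg, hba⟩
  obtain ⟨i, hi⟩ := Set.mem_iUnion.1 hmem
  obtain ⟨m, hm, hum⟩ := hi
  have hTZ : T ⊆ Z i := by
    intro j hj
    apply hm
    rw [Finsupp.mem_support_iff]
    intro h0
    have h1 : a j = u i j + m j := by rw [hum]; rfl
    rw [h0, ha, coe_vec, if_pos hj] at h1
    have := hu i j
    omega
  refine ⟨i, hT _ hTZ ?_⟩
  rintro ⟨g, hg, hgZ⟩
  have hmem' : u i + vec (indv (Z i)) ∈ ⋃ i, stanleySpace (u i) (Z i) := by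
    rw [Set.mem_iUnion]
    refine ⟨i, vec (indv (Z i)), ?_, rfl⟩
    intro j hj
    rw [Finsupp.mem_support_iff, coe_vec, indv] at hj
    by_contra hjZ
    rw [if_neg hjZ] at hj
    exact hj rfl
  rw [h.cover, Set.mem_ofPred_eq, monomial_mem_mono] at hmem'
  apply hmem'
  refine ⟨indv g, List.mem_map.2 ⟨g, hg, rfl⟩, fun j => ?_⟩
  change indv g j ≤ u i j + indv (Z i) j
  unfold indv
  split_ifs with h1 h2
  · omega
  · exact absurd (hgZ h1) h2
  · omega
  · omega

/-- The Stanley depth from an interval partition and a facet. -/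
lemma sdepth_eq (G : List (Finset (Fin n))) (T : Finset (Fin n))
    (hT : ∀ s : Finset (Fin n), T ⊆ s → (¬ ∃ g ∈ G, g ⊆ s) → s = T) (hT' : ¬ ∃ g ∈ G, g ⊆ T)
    {r : ℕ} (F Z : Fin r → Finset (Fin n)) (hFZ : ∀ i, F i ⊆ Z i)
    (h1 : ∀ s : Finset (Fin n), (¬ ∃ g ∈ G, g ⊆ s) ↔ ∃ i, F i ⊆ s ∧ s ⊆ Z i)
    (h2 : ∀ (s : Finset (Fin n)) (i j : Fin r), F i ⊆ s → s ⊆ Z i → F j ⊆ s → s ⊆ Z j → i = j)
    (hZ : ∀ i, T.card ≤ (Z i).card) :
    sdepth (mono K (G.map indv)) = T.card := by
  have hg : IsGreatest {d : ℕ | ∃ (r : ℕ) (u : Fin r → (Fin n →₀ ℕ)) (Z : Fin r → Finset (Fin n)),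
      IsStanleyDecomposition (mono K (G.map indv)) u Z ∧ ∀ i, d ≤ (Z i).card} T.card := by
    constructor
    · exact ⟨r, _, Z, isStanleyDecomposition_of_intervals K G F Z hFZ h1 h2, hZ⟩
    · rintro d ⟨r, u, Z, h, hd⟩
      obtain ⟨i, hi⟩ := le_card_of_facet K G T hT hT' u Z h
      rw [← hi]
      exact hd i
  exact hg.csSup_eq

/-- Minimal generators of the ideal generated by an antichain. -/
lemma minimalGenerators_mono (L : List (Fin n → ℕ))
    (hL : ∀ a ∈ L, ∀ b ∈ L, a ≤ b → a = b) :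
    minimalGenerators (mono K L) = vec '' {a | a ∈ L} := by
  ext a
  unfold minimalGenerators
  rw [Set.mem_ofPred_eq]
  simp only [monomial_mem_mono]
  constructor
  · rintro ⟨⟨b, hb, hba⟩, hmin⟩
    refine ⟨b, hb, ?_⟩
    have h1 : vec b ≤ a := hba
    exact le_antisymm h1 (hmin (y := vec b) ⟨b, hb, le_refl _⟩ h1)
  · rintro ⟨b, hb, rfl⟩
    refine ⟨⟨b, hb, le_refl _⟩, ?_⟩
    rintro y ⟨c, hc, hcy⟩ hyb
    have h1 : c ≤ b := hcy.trans hyb
    have h2 := hL c hc b hb h1
    subst h2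
    exact hcy

lemma ncard_minimalGenerators_mono (L : List (Fin n → ℕ))
    (hL : ∀ a ∈ L, ∀ b ∈ L, a ≤ b → a = b) (hnd : L.Nodup) :
    (minimalGenerators (mono K L)).ncard = L.length := by
  rw [minimalGenerators_mono K L hL, Set.ncard_image_of_injective _ vec_injective]
  have : {a | a ∈ L} = ((⟨↑L, by simpa using hnd⟩ : Finset (Fin n → ℕ)) : Set (Fin n → ℕ)) := by
    ext a
    simp
  rw [this, Set.ncard_coe_finset]
  rfl

lemma isMonomialIdeal_mono (L : List (Fin n → ℕ)) : IsMonomialIdeal (mono K L) :=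
  ⟨_, rfl⟩

lemma mono_ne_bot (L : List (Fin n → ℕ)) (b : Fin n → ℕ) (hb : b ∈ L) : mono K L ≠ ⊥ := by
  intro h
  have h1 : monomial (vec b) (1 : K) ∈ mono K L := (monomial_mem_mono K L _).2 ⟨b, hb, le_refl _⟩
  rw [h, Ideal.mem_bot, MvPolynomial.monomial_eq_zero] at h1
  exact one_ne_zero h1

lemma mono_ne_top (L : List (Fin n → ℕ)) (h0 : ∀ b ∈ L, b ≠ 0) : mono K L ≠ ⊤ := by
  intro h
  have h1 : monomial (0 : Fin n →₀ ℕ) (1 : K) ∈ mono K L := by rw [h]; trivial
  rw [monomial_mem_mono] at h1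
  obtain ⟨b, hb, hb0⟩ := h1
  exact h0 b hb (le_antisymm hb0 (fun i => Nat.zero_le _))

/-- One more regular monomial raises the degree of a nonvanishing `Ext`. -/
lemma ext_step_mono (L : List (Fin n → ℕ)) (f : Fin n → ℕ) (hL : L.map (· - f) = L)
    (N : ModuleCat.{u} (MvPolynomial (Fin n) K)) (hN : (monomial (vec f) (1 : K) • 𝟙 N) = 0)
    (t : ℕ) (h : ∃ e : Ext (quo (mono K L)) N t, e ≠ 0) :
    ∃ e : Ext (quo (mono K (f :: L))) N (t + 1), e ≠ 0 := by
  refine ext_ne_zero_step (mono K L) _ (monomial (vec f) (1 : K)) ?_ (mono_cons K f L) N hN t h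
  intro r hr
  rw [← colon_mono, hL] at hr
  exact hr

lemma smul_id_eq_zero {R : Type u} [CommRing R] (J : Ideal R) (f : R) (hf : f ∈ J) :
    (f • 𝟙 (quo J)) = 0 := by
  apply ModuleCat.hom_ext
  apply LinearMap.ext
  intro x
  obtain ⟨x, rfl⟩ := Submodule.Quotient.mk_surjective J x
  change Submodule.Quotient.mk (f * x) = (0 : R ⧸ J)
  rw [Submodule.Quotient.mk_eq_zero]
  exact J.mul_mem_right _ hf

lemma ext_zero_ne_zero {R : Type u} [CommRing R] (J J' : Ideal R) (h : J ≤ J') (hJ' : J' ≠ ⊤) :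
    ∃ e : Ext (quo J) (quo J') 0, e ≠ 0 := by
  let φ : quo J ⟶ quo J' := ModuleCat.ofHom (Submodule.mapQ J J' LinearMap.id h)
  refine ⟨Ext.mk₀ φ, ?_⟩
  intro h0
  rw [← Ext.mk₀_zero] at h0
  have h1 : φ = 0 := (Ext.mk₀_bijective _ _).1 h0
  have h2 : φ.hom (Submodule.Quotient.mk 1) = (0 : R ⧸ J') := by rw [h1]; rfl
  have h3 : (Submodule.Quotient.mk 1 : R ⧸ J') = 0 := h2
  rw [Submodule.Quotient.mk_eq_zero] at h3
  exact hJ' ((Ideal.eq_top_iff_one _).2 h3)

lemma not_lt_of_ext_ne_zero {R : Type u} [CommRing R] (M N : ModuleCat.{u} R) (t : ℕ)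
    (h : ∃ e : Ext M N t, e ≠ 0) : ¬ HasProjectiveDimensionLT M t := by
  intro hlt
  obtain ⟨e, he⟩ := h
  exact he (e.eq_zero_of_hasProjectiveDimensionLT t le_rfl)

end Lemmas

end Pool.Agent.Lib.MP_718c62_al
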